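import Mathlib

namespace Pool.Agent.MP_668d6d_lc

/-- `s` is definable in the ordered field `K`, in the language of ordered rings
(Mathlib's ring language together with Mathlib's order language, both with their standard
meaning on `K`), by a formula with parameters from `A`. -/
def OrDefinable (K : Type*) [Field K] [LinearOrder K] (A s : Set K) : Prop :=
  letI := FirstOrder.Ring.compatibleRingOfRing K
  letI := FirstOrder.Language.orderStructure K
  A.Definable₁ (FirstOrder.Language.ring.sum FirstOrder.Language.order) s

end Pool.Agent.MP_668d6d_lc
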